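import Pool.Agent.TOR.Stmts

/-! Squad TOR, row ISP: rules for `IntSpan` and dimensions. -/

set_option autoImplicit false

namespace Pool.Agent.TOR.H85

theorem isup_rank {ι : Type} (V : ι → Submodule ℚ (ℕ →₀ ℚ))
    (hV : ∀ i, FiniteDimensional ℚ (V i)) (s : Finset ι) :
    FiniteDimensional ℚ (s.sup V : Submodule ℚ (ℕ →₀ ℚ)) ∧
    Module.finrank ℚ (s.sup V : Submodule ℚ (ℕ →₀ ℚ)) ≤ ∑ i ∈ s, Module.finrank ℚ (V i) := by
  classical
  induction s using Finset.induction with
  | empty =>
    rw [Finset.sup_empty, Finset.sum_empty]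
    exact ⟨inferInstance, by rw [finrank_bot]⟩
  | insert a s ha ih =>
    obtain ⟨h1, h2⟩ := ih
    have h3 := hV a
    rw [Finset.sup_insert, Finset.sum_insert ha]
    exact ⟨inferInstance, (Submodule.finrank_add_le_finrank_add_finrank _ _).trans
      (Nat.add_le_add_left h2 _)⟩

theorem isp : IspStmt := by
  classical
  refine ⟨?_, ?_, ?_, ?_, ?_, ?_, ?_, ?_⟩
  · rintro n D V W ⟨G, hG, rfl⟩ ⟨G', hG', rfl⟩
    refine ⟨G ∪ G', fun g hg => ?_, ?_⟩
    · rcases Finset.mem_union.1 hg with h | h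
      · exact hG g h
      · exact hG' g h
    · rw [Finset.coe_union, Set.image_union, Submodule.span_union]
  · intro n D ι _ V hV
    choose G hG hG' using hV
    refine ⟨Finset.univ.biUnion G, fun g hg => ?_, ?_⟩
    · obtain ⟨i, _, hi⟩ := Finset.mem_biUnion.1 hg
      exact hG i g hi
    · rw [Finset.coe_biUnion, Set.image_iUnion₂, Submodule.span_iUnion₂]
      simp only [Finset.coe_univ, Set.mem_univ, iSup_pos]
      exact iSup_congr hG'
  · intro n D g h1 h2
    refine ⟨{g}, fun g' hg' => ?_, ?_⟩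
    · rw [Finset.mem_singleton.1 hg']
      exact ⟨h1, h2⟩
    · rw [Finset.coe_singleton, Set.image_singleton]
  · rintro n D D' V hD ⟨G, hG, rfl⟩
    exact ⟨G, fun g hg => ⟨fun l => ((hG g hg).1 l).trans (by exact_mod_cast hD), (hG g hg).2⟩, rfl⟩
  · rintro n D V ⟨G, hG, rfl⟩
    exact FiniteDimensional.span_of_finite ℚ (G.finite_toSet.image _)
  · intro V W hV hW
    exact Submodule.finrank_add_le_finrank_add_finrank _ _
  · intro ι _ V hV
    have h := (isup_rank V hV Finset.univ).2
    rwa [Finset.sup_univ_eq_iSup] at h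
  · intro v
    have h := finrank_span_le_card (R := ℚ) ({v} : Set (ℕ →₀ ℚ))
    simpa using h

end Pool.Agent.TOR.H85
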